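import Mathlib
import Pool.Agent.Q80.OddLeg

/-!
# No sequence of odd polynomial degree is a Legendre multiplier sequence
-/

open Polynomial

namespace Pool.Agent.Results.MP_87bea5_an.OddDegree

/-- the Legendre polynomials, by Rodrigues' formula -/
noncomputable def legendre (n : ℕ) : ℝ[X] :=
  C (1 / (2 ^ n * (n.factorial : ℝ))) * derivative^[n] ((X ^ 2 - 1) ^ n)

/-- all complex zeros are real; nonzero constants and the zero polynomial are included -/
def OnlyRealZeros (p : ℝ[X]) : Prop := p = 0 ∨ ∀ z : ℂ, aeval z p = 0 → z.im = 0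

/-- `γ` is a Legendre multiplier sequence: the linear operator `Γ` with `Γ[P_k] = γ_k P_k` maps
polynomials with only real zeros to polynomials with only real zeros. -/
def IsLegendreMultiplierSequence (γ : ℕ → ℝ) : Prop :=
  ∃ Γ : ℝ[X] →ₗ[ℝ] ℝ[X], (∀ k, Γ (legendre k) = γ k • legendre k) ∧
    ∀ p : ℝ[X], OnlyRealZeros p → OnlyRealZeros (Γ p)

lemma isLegendre : Q80.Leg.IsLegendre legendre := by
  apply Q80.Leg.isLegendre_rod.rescale
  intro k
  positivity

/-- For every odd `d` and every real polynomial `Q` of degree exactly `d`, the sequence `Q(k)` is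
not a Legendre multiplier sequence; one of the polynomials `(x + 1)^n` is mapped to a polynomial
with a non-real zero.  (The first clause says that the operator `Γ` of a sequence exists and is
unique.) -/
theorem result :
    (∀ γ : ℕ → ℝ, ∃! Γ : ℝ[X] →ₗ[ℝ] ℝ[X], ∀ k, Γ (legendre k) = γ k • legendre k) ∧
    ∀ d : ℕ, Odd d → ∀ Q : ℝ[X], Q.natDegree = d →
      ¬ IsLegendreMultiplierSequence (fun k => Q.eval (k : ℝ)) ∧
      ∀ Γ : ℝ[X] →ₗ[ℝ] ℝ[X], (∀ k : ℕ, Γ (legendre k) = Q.eval (k : ℝ) • legendre k) →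
        ∃ n : ℕ, ¬ OnlyRealZeros (Γ ((X + 1) ^ n)) := by
  constructor
  · intro γ
    obtain ⟨Γ, hΓ⟩ := Q80.Leg.exists_mult isLegendre γ
    refine ⟨Γ, hΓ, fun Γ' hΓ' => ?_⟩
    apply LinearMap.ext_on (Q80.Leg.span_legendre isLegendre)
    rintro _ ⟨k, rfl⟩
    rw [hΓ, hΓ']
  · intro d hd Q hQ
    have key : ∀ Γ : ℝ[X] →ₗ[ℝ] ℝ[X], (∀ k : ℕ, Γ (legendre k) = Q.eval (k : ℝ) • legendre k) →
        ∃ n : ℕ, ¬ OnlyRealZeros (Γ ((X + 1) ^ n)) := by
      intro Γ hΓ
      exact Q80.Leg.exists_bad isLegendre (by rw [hQ]; exact hd) hΓ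
    refine ⟨?_, key⟩
    rintro ⟨Γ, hΓ, hpres⟩
    obtain ⟨n, hn⟩ := key Γ hΓ
    apply hn
    apply hpres
    right
    intro z hz
    rw [map_pow, map_add, aeval_X, map_one] at hz
    have h1 : z + 1 = 0 := eq_zero_of_pow_eq_zero hz
    have h2 : z = -1 := by linear_combination h1
    rw [h2]; simp

end Pool.Agent.Results.MP_87bea5_an.OddDegree
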